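import Mathlib
import Pool.Agent.H5.Mea093dDefs
import Pool.Agent.H5.Mea093dProof

set_option autoImplicit false

namespace Pool.Agent.Results.MP_ea093d_al.InfiniteLattice

open Pool.Agent.H5.Mea093d

/-- There is a finite semigroup such that the inclusive variety it generates has infinitely many
inclusive subvarieties. -/
theorem result : ∃ (S : Type) (_ : Semigroup S), Finite S ∧
    (inclusiveSubvarieties (generated S)).Infinite :=
  main

end Pool.Agent.Results.MP_ea093d_al.InfiniteLattice
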